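import Mathlib
import Pool.Agent.Helper685.OSep.Metric
import Pool.Agent.Helper685.OSep.F1
import Pool.Agent.Helper685.OSep.Key2

set_option autoImplicit false

namespace Pool.Agent.Results.MP_7b81ff_an.SeparableIffUnique

open Pool.Agent.Helper685.OSep

section

open scoped Matrix.Norms.L2Operator

theorem nonempty_OS (E : Type) [NormedAddCommGroup E] [NormedSpace ℂ E] : Nonempty (OS E) := by
  let w : (i : {f : E →L[ℂ] ℂ // ‖f‖ ≤ 1}) → E →ₗ[ℂ] Matrix (Fin 1) (Fin 1) ℂ := fun i =>
    { toFun := fun e => Matrix.diagonal fun _ => i.1 e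
      map_add' := fun x y => by
        ext a b; fin_cases a; fin_cases b; simp
      map_smul' := fun c x => by
        ext a b; fin_cases a; fin_cases b; simp }
  have hw : ∀ i e, ‖w i e‖ = ‖i.1 e‖ := by
    intro i e
    change ‖(Matrix.diagonal fun _ => i.1 e : Matrix (Fin 1) (Fin 1) ℂ)‖ = _
    rw [Matrix.l2_opNorm_diagonal]
    exact pi_norm_const (i.1 e)
  have : Nonempty {f : E →L[ℂ] ℂ // ‖f‖ ≤ 1} := ⟨⟨0, by simp⟩⟩
  refine ⟨⟨_, isOS_of_family {f : E →L[ℂ] ℂ // ‖f‖ ≤ 1} (fun _ => 1) w ?_ ?_⟩⟩
  · intro i e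
    rw [hw]
    exact (i.1.le_opNorm e).trans (mul_le_of_le_one_left (norm_nonneg _) i.2)
  · intro e r hr
    obtain ⟨g, hg, hge⟩ := exists_dual_vector'' ℂ e
    refine ⟨⟨g, hg⟩, ?_⟩
    rw [hw, hge]
    simpa using hr

end

/-- For a finite-dimensional normed space `E`, the space `OS(E)` of its operator space structures is
separable if and only if it is compact, if and only if it is a single point. -/
theorem result (E : Type) [NormedAddCommGroup E] [NormedSpace ℂ E] [FiniteDimensional ℂ E] :
    List.TFAE [TopologicalSpace.SeparableSpace (OSClass E), CompactSpace (OSClass E),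
      ∃ p : OSClass E, ∀ q : OSClass E, q = p] := by
  tfae_have 2 → 1 := fun h => inferInstance
  tfae_have 3 → 2 := by
    rintro ⟨p, hp⟩
    have : Subsingleton (OSClass E) := ⟨fun a b => (hp a).trans (hp b).symm⟩
    infer_instance
  tfae_have 1 → 3 := by
    intro hsep
    by_contra hcon
    push Not at hcon
    obtain ⟨N₀⟩ := nonempty_OS E
    obtain ⟨q, hq⟩ := hcon (OSClass.mk N₀)
    obtain ⟨M₀, rfl⟩ : ∃ M : OS E, OSClass.mk M = q := Quotient.exists_rep (s := ciSetoid E) q
    -- a structure which is not the minimal one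
    obtain ⟨N, hN⟩ : ∃ N : OS E, N.norms ≠ minNorm := by
      by_contra hall
      push Not at hall
      apply hq
      have h1 := hall N₀
      have h2 := hall M₀
      have h3 : M₀.norms = N₀.norms := h2.trans h1.symm
      refine Quotient.sound (s := ciSetoid E) ?_
      change CompletelyIsometric M₀.norms N₀.norms
      rw [h3]
      exact (completelyIsometric_equiv E).refl _
    obtain ⟨n, x, hx⟩ : ∃ n x, N.norms n x ≠ minNorm n x := by
      by_contra hall
      push Not at hall
      exact hN (funext fun n => funext fun x => hall n x)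
    obtain ⟨H, iH1, iH2, iH3, J, hJ⟩ := N.isOS
    have hlt : minNorm n x < opNorm H n (x.map J) := by
      rw [← hJ]
      refine lt_of_le_of_ne ?_ (Ne.symm hx)
      rw [hJ]
      exact minNorm_le_opNorm H J n x
    have h0 : 0 ≤ minNorm n x := by
      rw [minNorm_eq]; exact minG_nonneg x
    obtain ⟨k, u, hu, hux⟩ := exists_compression H J n x (minNorm n x) h0 hlt
    obtain ⟨δ, hδ, κ, ν, w, X, h1, h2, h3, h4⟩ := key u hu x hux
    obtain ⟨NN, hOS, hNN⟩ := separated_family E δ hδ κ ν w X h1 h2 h3 h4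
    obtain ⟨r, hr, hfin⟩ := finite_near E (δ / 2) (by linarith)
    have hinj : Function.Injective NN := by
      intro A B hAB
      by_contra hne
      have h5 := hNN A B hne
      apply h5
      rw [hAB]
      refine ⟨?_, ?_⟩ <;> exact (CBLe.id' _).mono' (hOS B) (by linarith)
    have hfin' : ∀ M : OS E, {A : Set ℕ | Real.log (dcb (NN A) M.norms) < r}.Finite := by
      intro M
      have h5 := hfin (Set.range NN) (by rintro _ ⟨A, rfl⟩; exact hOS A) (by
        rintro _ ⟨A, rfl⟩ _ ⟨B, rfl⟩ hne
        exact hNN A B (fun h => hne (by rw [h]))) M.norms M.isOS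
      have h6 := Set.Finite.preimage (f := NN) hinj.injOn h5
      refine h6.subset ?_
      intro A hA
      exact ⟨⟨A, rfl⟩, hA⟩
    obtain ⟨D, hD, hDd⟩ := TopologicalSpace.exists_countable_dense (OSClass E)
    have hcov : (Set.univ : Set (Set ℕ)) ⊆ ⋃ d ∈ D, {A : Set ℕ | dist (OSClass.mk ⟨NN A, hOS A⟩) d < r} := by
      intro A _
      obtain ⟨d, hd, hdist⟩ := Metric.dense_iff.mp hDd (OSClass.mk ⟨NN A, hOS A⟩) r hr
      rw [Set.mem_iUnion₂]
      exact ⟨d, hdist, by rw [Set.mem_ofPred_eq, dist_comm]; exact hd⟩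
    have hcount : (Set.univ : Set (Set ℕ)).Countable := by
      refine Set.Countable.mono hcov (hD.biUnion fun d _ => ?_)
      obtain ⟨M, rfl⟩ : ∃ M : OS E, OSClass.mk M = d := Quotient.exists_rep (s := ciSetoid E) d
      exact (hfin' M).countable
    have hc : Countable (Set ℕ) := Set.countable_univ_iff.mp hcount
    obtain ⟨f, hf⟩ := exists_injective_nat (Set ℕ)
    exact Function.cantor_injective f hf
  tfae_finish

end Pool.Agent.Results.MP_7b81ff_an.SeparableIffUnique
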